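import Pool.Agent.Y935.RE.Stm

/-!
Elementary inequalities for lists in diminishing ranges (helper302, job RE-BLK).
-/

set_option autoImplicit false
set_option linter.unusedVariables false

namespace Pool.Agent.Y302.RE

open Finset MeasureTheory Filter
open Pool.Agent.Y935.RE

noncomputable section

lemma blk_succ (p β : ℝ) (r : ℕ) (lam : ℝ) : blk p β (r + 1) lam =
    ((Ioc ⌊p ^ lam⌋₊ (2 * ⌊p ^ lam⌋₊)) ×ˢ blk p β r (β * lam)).image fun t => t.1 :: t.2 := rfl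

lemma mem_succ {p β : ℝ} {r : ℕ} {lam : ℝ} {x : List ℕ} (hx : x ∈ blk p β (r + 1) lam) :
    ∃ a x', x = a :: x' ∧ a ∈ Ioc ⌊p ^ lam⌋₊ (2 * ⌊p ^ lam⌋₊) ∧ x' ∈ blk p β r (β * lam) := by
  rw [blk_succ, mem_image] at hx
  obtain ⟨⟨a, x'⟩, h, rfl⟩ := hx
  rw [mem_product] at h
  exact ⟨a, x', rfl, h.1, h.2⟩

lemma card_succ (p β : ℝ) (r : ℕ) (lam : ℝ) :
    (blk p β (r + 1) lam).card = ⌊p ^ lam⌋₊ * (blk p β r (β * lam)).card := by
  rw [blk_succ, card_image_of_injOn, card_product, Nat.card_Ioc]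
  · congr 1
    omega
  · rintro ⟨a, x⟩ _ ⟨b, y⟩ _ h
    simpa using h

lemma mem_real {P : ℝ} (hP : 0 ≤ P) {a : ℕ} (ha : a ∈ Ioc ⌊P⌋₊ (2 * ⌊P⌋₊)) :
    P < a ∧ (a : ℝ) ≤ 2 * P := by
  rw [mem_Ioc] at ha
  refine ⟨Nat.lt_of_floor_lt ha.1, ?_⟩
  have := Nat.floor_le hP
  have h2 : (a : ℝ) ≤ 2 * (⌊P⌋₊ : ℝ) := by exact_mod_cast ha.2
  linarith

lemma Sv_cons (c : ℝ) (a : ℕ) (l : List ℕ) : Sv c (a :: l) = (a : ℝ) ^ c + Sv c l := by
  simp [Sv]

lemma Sd_cons (c : ℝ) (a : ℕ) (l : List ℕ) :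
    Sd c (a :: l) = (a : ℝ) ^ c * Real.log a + Sd c l := by
  simp [Sd]

lemma bd {p β c : ℝ} (hp : 1 ≤ p) (hβ : 0 < β) (hβ1 : β ≤ 1) (hc : 0 ≤ c) (r : ℕ) :
    ∀ lam : ℝ, 0 < lam → lam ≤ 1 → ∀ l ∈ blk p β r lam,
      (0 ≤ Sv c l ∧ Sv c l ≤ r * (2 * p ^ lam) ^ c) ∧
        0 ≤ Sd c l ∧ Sd c l ≤ r * (2 * p ^ lam) ^ c * Real.log (2 * p) := by
  induction r with
  | zero =>
    intro lam h0 h1 l hl
    have : l = [] := by simpa [blk] using hl
    subst this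
    simp [Sv, Sd]
  | succ r ih =>
    intro lam h0 h1 l hl
    obtain ⟨a, x, rfl, ha, hx⟩ := mem_succ hl
    have hp0 : (0 : ℝ) < p := by linarith
    have hP0 : 0 < p ^ lam := Real.rpow_pos_of_pos hp0 _
    have hP1 : 1 ≤ p ^ lam := Real.one_le_rpow hp h0.le
    have hPp : p ^ lam ≤ p := by
      calc p ^ lam ≤ p ^ (1 : ℝ) := Real.rpow_le_rpow_of_exponent_le hp h1
        _ = p := Real.rpow_one p
    obtain ⟨ha1, ha2⟩ := mem_real hP0.le ha
    obtain ⟨⟨i1, i2⟩, i3, i4⟩ := ih (β * lam) (by positivity)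
      (by nlinarith) x hx
    have hmono : p ^ (β * lam) ≤ p ^ lam :=
      Real.rpow_le_rpow_of_exponent_le hp (by nlinarith)
    have hQ0 : 0 < p ^ (β * lam) := Real.rpow_pos_of_pos hp0 _
    have h5 : (2 * p ^ (β * lam)) ^ c ≤ (2 * p ^ lam) ^ c :=
      Real.rpow_le_rpow (by positivity) (by linarith) hc
    have h6 : (a : ℝ) ^ c ≤ (2 * p ^ lam) ^ c :=
      Real.rpow_le_rpow (by linarith) ha2 hc
    have h7 : 0 ≤ (a : ℝ) ^ c := Real.rpow_nonneg (by linarith) _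
    have h8 : 0 ≤ Real.log a := Real.log_nonneg (by linarith)
    have h9 : Real.log a ≤ Real.log (2 * p) := Real.log_le_log (by linarith) (by linarith)
    have h10 : 0 ≤ Real.log (2 * p) := h8.trans h9
    have hr : (0 : ℝ) ≤ r := Nat.cast_nonneg r
    have h11 : (r : ℝ) * (2 * p ^ (β * lam)) ^ c ≤ r * (2 * p ^ lam) ^ c :=
      mul_le_mul_of_nonneg_left h5 hr
    have h12 : (a : ℝ) ^ c * Real.log a ≤ (2 * p ^ lam) ^ c * Real.log (2 * p) :=
      mul_le_mul h6 h9 h8 (h7.trans h6)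
    rw [Sv_cons, Sd_cons]
    push_cast
    refine ⟨⟨by positivity, by linarith⟩, by positivity, ?_⟩
    have h13 := mul_le_mul_of_nonneg_right h11 h10
    linarith

lemma two {P a b c : ℝ} (hP : 0 < P) (ha : P < a) (ha2 : a ≤ 2 * P) (hb : P < b)
    (hb2 : b ≤ 2 * P) (hc : 1 ≤ c) :
    P ^ (c - 1) * |a - b| ≤ |a ^ c - b ^ c| ∧
      |a ^ c * Real.log a - b ^ c * Real.log b - Real.log P * (a ^ c - b ^ c)|
        ≤ 2 * |a ^ c - b ^ c| := by
  wlog h : b ≤ a generalizing a b with H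
  · have := H hb hb2 ha ha2 (le_of_not_ge h)
    rw [abs_sub_comm b a, abs_sub_comm (b ^ c) (a ^ c)] at this
    refine ⟨this.1, ?_⟩
    rw [show a ^ c * Real.log a - b ^ c * Real.log b - Real.log P * (a ^ c - b ^ c)
      = -(b ^ c * Real.log b - a ^ c * Real.log a - Real.log P * (b ^ c - a ^ c)) by ring, abs_neg]
    exact this.2
  have ha0 : 0 < a := by linarith
  have hb0 : 0 < b := by linarith
  have ea : a ^ c = a ^ (c - 1) * a := by
    rw [← Real.rpow_add_one ha0.ne', sub_add_cancel]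
  have eb : b ^ c = b ^ (c - 1) * b := by
    rw [← Real.rpow_add_one hb0.ne', sub_add_cancel]
  have m1 : b ^ (c - 1) ≤ a ^ (c - 1) := Real.rpow_le_rpow hb0.le h (by linarith)
  have m2 : P ^ (c - 1) ≤ b ^ (c - 1) := Real.rpow_le_rpow hP.le hb.le (by linarith)
  have h1 : b ^ (c - 1) * (a - b) ≤ a ^ c - b ^ c := by
    rw [ea, eb]
    nlinarith
  have hab : 0 ≤ a - b := by linarith
  have hpb : 0 ≤ b ^ (c - 1) := Real.rpow_nonneg hb0.le _
  have hd : 0 ≤ a ^ c - b ^ c := le_trans (mul_nonneg hpb hab) h1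
  have hbc : 0 ≤ b ^ c := Real.rpow_nonneg hb0.le _
  rw [abs_of_nonneg hd, abs_of_nonneg hab]
  refine ⟨(mul_le_mul_of_nonneg_right m2 hab).trans h1, ?_⟩
  have la : Real.log a = Real.log P + Real.log (a / P) := by
    rw [Real.log_div ha0.ne' hP.ne']
    ring
  have lb : Real.log b = Real.log P + Real.log (a / P) - Real.log (a / b) := by
    rw [Real.log_div ha0.ne' hP.ne', Real.log_div ha0.ne' hb0.ne']
    ring
  have l1 : 0 ≤ Real.log (a / P) := Real.log_nonneg ((one_le_div hP).2 ha.le)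
  have l2 : Real.log (a / P) ≤ 1 := by
    have : Real.log (a / P) ≤ a / P - 1 := Real.log_le_sub_one_of_pos (by positivity)
    have h3 : a / P ≤ 2 := by rw [div_le_iff₀ hP]; exact ha2
    linarith
  have l3 : 0 ≤ Real.log (a / b) := Real.log_nonneg ((one_le_div hb0).2 h)
  have l4 : b ^ c * Real.log (a / b) ≤ a ^ c - b ^ c := by
    have h3 : Real.log (a / b) ≤ a / b - 1 := Real.log_le_sub_one_of_pos (by positivity)
    have h4 : b ^ c * (a / b - 1) = b ^ (c - 1) * (a - b) := by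
      rw [eb]
      field_simp
    calc b ^ c * Real.log (a / b) ≤ b ^ c * (a / b - 1) := mul_le_mul_of_nonneg_left h3 hbc
      _ = b ^ (c - 1) * (a - b) := h4
      _ ≤ _ := h1
  have e : a ^ c * Real.log a - b ^ c * Real.log b - Real.log P * (a ^ c - b ^ c)
      = (a ^ c - b ^ c) * Real.log (a / P) + b ^ c * Real.log (a / b) := by
    rw [la, lb]
    ring
  rw [e, abs_of_nonneg (by positivity)]
  nlinarith

lemma key {β c1 c2 lam p c : ℝ} {r : ℕ} (hβ : 0 < β) (hβ1 : β ≤ 1) (hlam : 0 < lam)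
    (hp : 1 ≤ p) (hc0 : 0 ≤ c) (hc1 : c1 ≤ c) (hc2 : c ≤ c2)
    (hE : 8 * (r * 2 ^ c2) * (1 + Real.log (2 * p)) ≤ p ^ (lam * (c1 * (1 - β) - 1))) :
    8 * (r * (2 * p ^ (β * lam)) ^ c) * (1 + Real.log (2 * p)) ≤ p ^ (lam * (c - 1)) := by
  have hp0 : (0 : ℝ) < p := by linarith
  have hL : 0 ≤ Real.log (2 * p) := Real.log_nonneg (by linarith)
  have hr : (0 : ℝ) ≤ r := Nat.cast_nonneg r
  have h1 : (2 * p ^ (β * lam)) ^ c = 2 ^ c * p ^ (β * lam * c) := by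
    rw [Real.mul_rpow (by norm_num) (Real.rpow_nonneg hp0.le _), ← Real.rpow_mul hp0.le]
  have h2 : (2 : ℝ) ^ c ≤ 2 ^ c2 := Real.rpow_le_rpow_of_exponent_le (by norm_num) hc2
  have hq : 0 ≤ p ^ (β * lam * c) := Real.rpow_nonneg hp0.le _
  have h3 : 8 * (r * (2 ^ c * p ^ (β * lam * c))) * (1 + Real.log (2 * p))
      ≤ 8 * (r * (2 ^ c2 * p ^ (β * lam * c))) * (1 + Real.log (2 * p)) := by
    gcongr
  rw [h1]
  refine h3.trans ?_
  have h4 : 8 * (r * (2 ^ c2 * p ^ (β * lam * c))) * (1 + Real.log (2 * p))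
      = 8 * (r * 2 ^ c2) * (1 + Real.log (2 * p)) * p ^ (β * lam * c) := by ring
  rw [h4]
  refine (mul_le_mul_of_nonneg_right hE hq).trans ?_
  rw [← Real.rpow_add hp0]
  apply Real.rpow_le_rpow_of_exponent_le hp
  have h5 : lam * (c1 * (1 - β)) ≤ lam * (c * (1 - β)) := by
    apply mul_le_mul_of_nonneg_left _ hlam.le
    exact mul_le_mul_of_nonneg_right hc1 (by linarith)
  nlinarith

lemma ev_log (K s : ℝ) (hs : 0 < s) (hK : 0 ≤ K) :
    ∀ᶠ p : ℕ in atTop, K * (1 + Real.log (2 * p)) ≤ (p : ℝ) ^ s := by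
  have h1 : ∀ᶠ x : ℝ in atTop, ‖Real.log x‖ ≤ (1 / (2 * (K + 1))) * ‖x ^ s‖ :=
    (isLittleO_log_rpow_atTop hs).def (by positivity)
  have h2 : ∀ᶠ x : ℝ in atTop, 4 * K ≤ x ^ s := (tendsto_rpow_atTop hs).eventually_ge_atTop _
  have h3 : ∀ᶠ x : ℝ in atTop, K * (1 + Real.log (2 * x)) ≤ x ^ s := by
    filter_upwards [h1, h2, eventually_ge_atTop 1] with x a1 a2 a3
    have hx : 0 < x := by linarith
    have e1 : Real.log (2 * x) = Real.log 2 + Real.log x := Real.log_mul (by norm_num) hx.ne'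
    have e2 : Real.log 2 ≤ 1 := by
      have := Real.log_le_sub_one_of_pos (show (0 : ℝ) < 2 by norm_num)
      linarith
    have hxs : 0 ≤ x ^ s := Real.rpow_nonneg hx.le _
    rw [Real.norm_of_nonneg (Real.log_nonneg a3), Real.norm_of_nonneg hxs] at a1
    have a4 : K * Real.log x ≤ x ^ s / 2 := by
      calc K * Real.log x ≤ K * (1 / (2 * (K + 1)) * x ^ s) := mul_le_mul_of_nonneg_left a1 hK
        _ = (K / (K + 1)) * (x ^ s / 2) := by field_simp
        _ ≤ 1 * (x ^ s / 2) := by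
            apply mul_le_mul_of_nonneg_right _ (by positivity)
            rw [div_le_one (by positivity)]
            linarith
        _ = x ^ s / 2 := one_mul _
    rw [e1]
    have a5 : K * (1 + (Real.log 2 + Real.log x)) = K + K * Real.log 2 + K * Real.log x := by ring
    have a6 : K * Real.log 2 ≤ K * 1 := mul_le_mul_of_nonneg_left e2 hK
    rw [a5]
    linarith
  exact tendsto_natCast_atTop_atTop.eventually h3

lemma ev_big (B s : ℝ) (hs : 0 < s) : ∀ᶠ p : ℕ in atTop, B ≤ (p : ℝ) ^ s :=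
  tendsto_natCast_atTop_atTop.eventually ((tendsto_rpow_atTop hs).eventually_ge_atTop _)

/-- the comparison of two lists with different first terms -/
lemma cmpl {β c1 c2 lam p c : ℝ} {r : ℕ} (hβ : 0 < β) (hβ1 : β ≤ 1) (hlam : 0 < lam)
    (hlam1 : lam ≤ 1) (hp : 1 ≤ p) (hc0 : 1 ≤ c) (hc1 : c1 ≤ c) (hc2 : c ≤ c2)
    (hE : 8 * (r * 2 ^ c2) * (1 + Real.log (2 * p)) ≤ p ^ (lam * (c1 * (1 - β) - 1)))
    {a b : ℕ} {x y : List ℕ} (ha : a ∈ Ioc ⌊p ^ lam⌋₊ (2 * ⌊p ^ lam⌋₊))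
    (hb : b ∈ Ioc ⌊p ^ lam⌋₊ (2 * ⌊p ^ lam⌋₊)) (hx : x ∈ blk p β r (β * lam))
    (hy : y ∈ blk p β r (β * lam)) (hab : a ≠ b) :
    3 / 4 * (p ^ (lam * (c - 1)) * |(a : ℝ) - b|) ≤ |Sv c (a :: x) - Sv c (b :: y)| ∧
      |Sd c (a :: x) - Sd c (b :: y) - lam * Real.log p * (Sv c (a :: x) - Sv c (b :: y))|
        ≤ 4 * |Sv c (a :: x) - Sv c (b :: y)| := by
  have hp0 : (0 : ℝ) < p := by linarith
  have hP0 : 0 < p ^ lam := Real.rpow_pos_of_pos hp0 _
  obtain ⟨ha1, ha2⟩ := mem_real hP0.le ha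
  obtain ⟨hb1, hb2⟩ := mem_real hP0.le hb
  obtain ⟨t1, t2⟩ := two hP0 ha1 ha2 hb1 hb2 hc0
  rw [← Real.rpow_mul hp0.le] at t1
  rw [Real.log_rpow hp0] at t2
  have hK := key hβ hβ1 hlam hp (by linarith) hc1 hc2 hE
  obtain ⟨⟨x1, x2⟩, x3, x4⟩ := bd hp hβ hβ1 (by linarith : 0 ≤ c) r (β * lam) (by positivity)
    (by nlinarith) x hx
  obtain ⟨⟨y1, y2⟩, y3, y4⟩ := bd hp hβ hβ1 (by linarith : 0 ≤ c) r (β * lam) (by positivity)
    (by nlinarith) y hy
  obtain ⟨R, hR⟩ : ∃ R : ℝ, R = r * (2 * p ^ (β * lam)) ^ c := ⟨_, rfl⟩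
  rw [← hR] at hK x2 x4 y2 y4
  have hL : 0 ≤ Real.log (2 * p) := Real.log_nonneg (by linarith)
  have hLp : 0 ≤ Real.log p := Real.log_nonneg hp
  have hLL : Real.log p ≤ Real.log (2 * p) := Real.log_le_log hp0 (by linarith)
  have hR0 : 0 ≤ R := x1.trans x2
  have habs : (1 : ℝ) ≤ |(a : ℝ) - b| := by
    have h1 : ((a : ℤ) - (b : ℤ)) ≠ 0 := by
      intro h
      apply hab
      omega
    have h2 : (1 : ℤ) ≤ |(a : ℤ) - (b : ℤ)| := Int.one_le_abs h1
    have h3 : ((1 : ℤ) : ℝ) ≤ ((|(a : ℤ) - (b : ℤ)| : ℤ) : ℝ) := by exact_mod_cast h2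
    simpa using h3
  obtain ⟨d, hd⟩ : ∃ d : ℝ, d = (a : ℝ) ^ c - (b : ℝ) ^ c := ⟨_, rfl⟩
  rw [← hd] at t1 t2
  obtain ⟨Q, hQ⟩ : ∃ Q : ℝ, Q = p ^ (lam * (c - 1)) := ⟨_, rfl⟩
  rw [← hQ] at t1 hK ⊢
  have hQ0 : 0 < Q := by
    rw [hQ]
    exact Real.rpow_pos_of_pos hp0 _
  have hQd : Q ≤ |d| := by
    refine le_trans ?_ t1
    exact le_mul_of_one_le_right hQ0.le habs
  have k1 : 8 * R * Real.log (2 * p) + 8 * R ≤ |d| := by
    have : 8 * R * (1 + Real.log (2 * p)) = 8 * R * Real.log (2 * p) + 8 * R := by ring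
    linarith
  have hRL : 0 ≤ R * Real.log (2 * p) := by positivity
  have eD : Sv c (a :: x) - Sv c (b :: y) = d + (Sv c x - Sv c y) := by
    rw [Sv_cons, Sv_cons, hd]
    ring
  have bD' : |Sv c x - Sv c y| ≤ R := abs_sub_le_iff.2 ⟨by linarith, by linarith⟩
  have bE' : |Sd c x - Sd c y| ≤ R * Real.log (2 * p) :=
    abs_sub_le_iff.2 ⟨by linarith, by linarith⟩
  have lowD : 3 / 4 * |d| ≤ |Sv c (a :: x) - Sv c (b :: y)| := by
    rw [eD]
    have h1 : |d| ≤ |d + (Sv c x - Sv c y)| + |Sv c x - Sv c y| := by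
      have := abs_sub (d + (Sv c x - Sv c y)) (Sv c x - Sv c y)
      rwa [add_sub_cancel_right] at this
    linarith
  refine ⟨?_, ?_⟩
  · refine le_trans ?_ lowD
    linarith
  · have e2 : Sd c (a :: x) - Sd c (b :: y) - lam * Real.log p * (Sv c (a :: x) - Sv c (b :: y))
        = ((a : ℝ) ^ c * Real.log a - (b : ℝ) ^ c * Real.log b - lam * Real.log p * d)
          + (Sd c x - Sd c y) - lam * Real.log p * (Sv c x - Sv c y) := by
      rw [Sd_cons, Sd_cons, eD]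
      ring
    have h2 : |lam * Real.log p * (Sv c x - Sv c y)| ≤ Real.log (2 * p) * R := by
      rw [abs_mul, abs_of_nonneg (by positivity : 0 ≤ lam * Real.log p)]
      apply mul_le_mul _ bD' (abs_nonneg _) hL
      nlinarith
    rw [e2]
    have h3 := abs_sub (((a : ℝ) ^ c * Real.log a - (b : ℝ) ^ c * Real.log b
      - lam * Real.log p * d) + (Sd c x - Sd c y)) (lam * Real.log p * (Sv c x - Sv c y))
    have h4 := abs_add_le ((a : ℝ) ^ c * Real.log a - (b : ℝ) ^ c * Real.log b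
      - lam * Real.log p * d) (Sd c x - Sd c y)
    linarith

theorem ld_aux (β c1 c2 B : ℝ) (hβ : 0 < β) (hc1 : 1 < c1) (hb : β < 1 - 1 / c1) (r : ℕ) :
    ∀ lam : ℝ, 0 < lam → lam ≤ 1 → ∀ᶠ p : ℕ in atTop, ∀ x ∈ blk p β r lam,
      ∀ y ∈ blk p β r lam, x ≠ y → ∃ j < r, ∀ c : ℝ, c1 ≤ c → c ≤ c2 → B ≤ |Sv c x - Sv c y| ∧
        |Sd c x - Sd c y - lam * β ^ j * Real.log p * (Sv c x - Sv c y)|
          ≤ 4 * |Sv c x - Sv c y| := by
  have hc10 : 0 < c1 := by linarith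
  have hβ1 : β < 1 := by
    have : 0 < 1 / c1 := by positivity
    linarith
  have hg : 0 < c1 * (1 - β) - 1 := by
    have h1 : 1 / c1 < 1 - β := by linarith
    rw [div_lt_iff₀ hc10] at h1
    linarith
  induction r with
  | zero =>
    intro lam h0 h1
    refine Eventually.of_forall fun p x hx y hy hxy => ?_
    have e1 : x = [] := by simpa [blk] using hx
    have e2 : y = [] := by simpa [blk] using hy
    exact absurd (e1.trans e2.symm) hxy
  | succ r ih =>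
    intro lam h0 h1
    have hl1 : β * lam ≤ 1 := by nlinarith
    filter_upwards [ih (β * lam) (by positivity) hl1, eventually_ge_atTop 1,
      ev_log (8 * (r * 2 ^ c2)) (lam * (c1 * (1 - β) - 1)) (by positivity) (by positivity),
      ev_big (4 / 3 * B) (lam * (c1 - 1)) (mul_pos h0 (by linarith))] with p hI hp hE hB x hx y hy hxy
    have hp1 : (1 : ℝ) ≤ p := by exact_mod_cast hp
    obtain ⟨a, x', rfl, ha, hx'⟩ := mem_succ hx
    obtain ⟨b, y', rfl, hb', hy'⟩ := mem_succ hy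
    by_cases hab : a = b
    · subst hab
      have hxy' : x' ≠ y' := fun h => hxy (by rw [h])
      obtain ⟨j, hj, HJ⟩ := hI x' hx' y' hy' hxy'
      refine ⟨j + 1, by omega, fun c h2 h3 => ?_⟩
      obtain ⟨u1, u2⟩ := HJ c h2 h3
      have e1 : Sv c (a :: x') - Sv c (a :: y') = Sv c x' - Sv c y' := by
        rw [Sv_cons, Sv_cons]
        ring
      have e2 : Sd c (a :: x') - Sd c (a :: y') = Sd c x' - Sd c y' := by
        rw [Sd_cons, Sd_cons]
        ring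
      rw [e1, e2, show lam * β ^ (j + 1) = β * lam * β ^ j by ring]
      exact ⟨u1, u2⟩
    · refine ⟨0, by omega, fun c h2 h3 => ?_⟩
      obtain ⟨u1, u2⟩ := cmpl hβ hβ1.le h0 h1 hp1 (by linarith : 1 ≤ c) h2 h3 hE ha hb' hx' hy' hab
      rw [pow_zero, mul_one]
      refine ⟨?_, u2⟩
      refine le_trans ?_ u1
      have habs : (1 : ℝ) ≤ |(a : ℝ) - b| := by
        have h1 : ((a : ℤ) - (b : ℤ)) ≠ 0 := by
          intro h
          apply hab
          omega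
        have h2 : (1 : ℤ) ≤ |(a : ℤ) - (b : ℤ)| := Int.one_le_abs h1
        have h3 : ((1 : ℤ) : ℝ) ≤ ((|(a : ℤ) - (b : ℤ)| : ℤ) : ℝ) := by exact_mod_cast h2
        simpa using h3
      have h4 : (p : ℝ) ^ (lam * (c1 - 1)) ≤ (p : ℝ) ^ (lam * (c - 1)) := by
        apply Real.rpow_le_rpow_of_exponent_le hp1
        apply mul_le_mul_of_nonneg_left _ h0.le
        linarith
      have h5 : 0 ≤ (p : ℝ) ^ (lam * (c - 1)) := Real.rpow_nonneg (by linarith) _
      have h6 : (p : ℝ) ^ (lam * (c - 1)) ≤ (p : ℝ) ^ (lam * (c - 1)) * |(a : ℝ) - b| :=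
        le_mul_of_one_le_right h5 habs
      linarith

lemma cnt_near {S : Finset ℕ} {a : ℕ} {X : ℝ} (hX : 0 ≤ X)
    (h : ∀ b ∈ S, b ≠ a ∧ |(a : ℝ) - b| ≤ X) : (S.card : ℝ) ≤ 2 * X := by
  obtain ⟨m, hm⟩ : ∃ m, m = ⌊X⌋₊ := ⟨_, rfl⟩
  have hsub : S ⊆ (Icc (a - m) (a + m)).erase a := by
    intro b hb
    obtain ⟨h1, h2⟩ := h b hb
    rw [mem_erase, mem_Icc]
    have h3 : |(a : ℤ) - b| ≤ (m : ℤ) := by
      have h4 : ((|(a : ℤ) - b|.toNat : ℕ) : ℝ) ≤ X := by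
        have : ((|(a : ℤ) - b|.toNat : ℕ) : ℝ) = |(a : ℝ) - b| := by
          have e : ((|(a : ℤ) - b|.toNat : ℕ) : ℤ) = |(a : ℤ) - b| :=
            Int.toNat_of_nonneg (abs_nonneg _)
          have e2 : ((|(a : ℤ) - b|.toNat : ℕ) : ℝ) = ((|(a : ℤ) - b| : ℤ) : ℝ) := by
            rw [← e]
            push_cast
            simp
          rw [e2]
          simp
        rw [this]
        exact h2
      have h5 : |(a : ℤ) - b|.toNat ≤ m := by
        rw [hm]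
        exact Nat.le_floor h4
      have := Int.toNat_of_nonneg (abs_nonneg ((a : ℤ) - b))
      omega
    rw [abs_le] at h3
    refine ⟨h1, ?_, ?_⟩ <;> omega
  have h1 := card_le_card hsub
  have h2 : ((Icc (a - m) (a + m)).erase a).card ≤ 2 * m := by
    rw [card_erase_of_mem (by rw [mem_Icc]; omega), Nat.card_Icc]
    omega
  have h3 : (S.card : ℝ) ≤ 2 * m := by exact_mod_cast h1.trans h2
  have h4 : (m : ℝ) ≤ X := by
    rw [hm]
    exact Nat.floor_le hX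
  linarith

theorem cnt_aux (β c1 c2 : ℝ) (hβ : 0 < β) (hc1 : 1 < c1) (hc : c1 ≤ c2) (hb : β < 1 - 1 / c1)
    (r : ℕ) : ∀ lam : ℝ, 0 < lam → lam ≤ 1 → ∃ K : ℝ, 0 < K ∧ ∀ᶠ p : ℕ in atTop, ∀ c : ℝ,
      c1 ≤ c → c ≤ c2 → ∀ x ∈ blk p β r lam, ∀ V : ℝ, 0 ≤ V →
      (((blk p β r lam).filter fun y => y ≠ x ∧ |Sv c x - Sv c y| ≤ V).card : ℝ) ≤
        K * V * (p : ℝ) ^ (r * (c2 - 1 - β * c1) - lam * c1) * (blk p β r lam).card := by
  have hc10 : 0 < c1 := by linarith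
  have hβ1 : β < 1 := by
    have : 0 < 1 / c1 := by positivity
    linarith
  have hg : 0 < c1 * (1 - β) - 1 := by
    have h1 : 1 / c1 < 1 - β := by linarith
    rw [div_lt_iff₀ hc10] at h1
    linarith
  have he : 0 < c2 - 1 - β * c1 := by nlinarith
  induction r with
  | zero =>
    intro lam h0 h1
    refine ⟨1, one_pos, Eventually.of_forall fun p c h2 h3 x hx V hV => ?_⟩
    have e1 : x = [] := by simpa [blk] using hx
    have e2 : ((blk p β 0 lam).filter fun y => y ≠ x ∧ |Sv c x - Sv c y| ≤ V) = ∅ := by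
      rw [filter_eq_empty_iff]
      intro y hy h
      have e3 : y = [] := by simpa [blk] using hy
      exact h.1 (e3.trans e1.symm)
    rw [e2, card_empty]
    have : 0 ≤ (p : ℝ) ^ (((0 : ℕ) : ℝ) * (c2 - 1 - β * c1) - lam * c1) :=
      Real.rpow_nonneg (Nat.cast_nonneg p) _
    push_cast
    positivity
  | succ r ih =>
    intro lam h0 h1
    have hl1 : β * lam ≤ 1 := by nlinarith
    obtain ⟨K, hK, hI⟩ := ih (β * lam) (by positivity) hl1
    refine ⟨2 * K + 6, by positivity, ?_⟩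
    filter_upwards [hI, eventually_ge_atTop 1,
      ev_log (8 * (r * 2 ^ c2)) (lam * (c1 * (1 - β) - 1)) (by positivity) (by positivity)]
      with p hI hp hE c h2 h3 x hx V hV
    have hp1 : (1 : ℝ) ≤ p := by exact_mod_cast hp
    have hp0 : (0 : ℝ) < p := by linarith
    obtain ⟨a, x', rfl, ha, hx'⟩ := mem_succ hx
    obtain ⟨n, hn⟩ : ∃ n : ℝ, n = ((blk p β r (β * lam)).card : ℝ) := ⟨_, rfl⟩
    have hn0 : 0 ≤ n := by rw [hn]; exact Nat.cast_nonneg _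
    obtain ⟨N, hN⟩ : ∃ N : ℝ, N = ((blk p β (r + 1) lam).card : ℝ) := ⟨_, rfl⟩
    have hNn : (p : ℝ) ^ lam * n ≤ 2 * N := by
      rw [hN, card_succ, hn]
      push_cast
      have hP1 : 1 ≤ (p : ℝ) ^ lam := Real.one_le_rpow hp1 h0.le
      have f1 : (p : ℝ) ^ lam < ⌊(p : ℝ) ^ lam⌋₊ + 1 := Nat.lt_floor_add_one _
      have f2 : (1 : ℝ) ≤ ⌊(p : ℝ) ^ lam⌋₊ := by
        exact_mod_cast Nat.le_floor (by exact_mod_cast hP1)
      have f3 : (0 : ℝ) ≤ ((blk p β r (β * lam)).card : ℝ) := Nat.cast_nonneg _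
      nlinarith
    obtain ⟨X, hX⟩ : ∃ X : ℝ, X = 4 / 3 * V * (p : ℝ) ^ (-(lam * (c - 1))) := ⟨_, rfl⟩
    have hX0 : 0 ≤ X := by
      rw [hX]
      have : 0 ≤ (p : ℝ) ^ (-(lam * (c - 1))) := Real.rpow_nonneg hp0.le _
      positivity
    have hsub : ((blk p β (r + 1) lam).filter fun y => y ≠ a :: x' ∧
        |Sv c (a :: x') - Sv c y| ≤ V) ⊆
        (((blk p β r (β * lam)).filter fun y => y ≠ x' ∧ |Sv c x' - Sv c y| ≤ V).image
          fun y => a :: y) ∪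
        ((((Ioc ⌊(p : ℝ) ^ lam⌋₊ (2 * ⌊(p : ℝ) ^ lam⌋₊)).filter fun b : ℕ => b ≠ a ∧
          |(a : ℝ) - b| ≤ X) ×ˢ blk p β r (β * lam)).image fun t => t.1 :: t.2) := by
      intro y hy
      rw [mem_filter] at hy
      obtain ⟨hy1, hy2, hy3⟩ := hy
      obtain ⟨b, y', rfl, hb', hy'⟩ := mem_succ hy1
      rw [mem_union]
      by_cases hab : b = a
      · left
        subst hab
        rw [mem_image]
        refine ⟨y', ?_, rfl⟩
        rw [mem_filter]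
        refine ⟨hy', fun h => hy2 (by rw [h]), ?_⟩
        have e1 : Sv c (b :: x') - Sv c (b :: y') = Sv c x' - Sv c y' := by
          rw [Sv_cons, Sv_cons]
          ring
        rw [← e1]
        exact hy3
      · right
        rw [mem_image]
        refine ⟨(b, y'), ?_, rfl⟩
        rw [mem_product, mem_filter]
        refine ⟨⟨hb', hab, ?_⟩, hy'⟩
        obtain ⟨u1, -⟩ := cmpl hβ hβ1.le h0 h1 hp1 (by linarith : 1 ≤ c) h2 h3 hE ha hb' hx' hy'
          (fun h => hab h.symm)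
        have u2 := u1.trans hy3
        have hQ0 : 0 < (p : ℝ) ^ (lam * (c - 1)) := Real.rpow_pos_of_pos hp0 _
        rw [hX, Real.rpow_neg hp0.le, ← div_eq_mul_inv, le_div_iff₀ hQ0]
        linarith
    have c1' := card_le_card hsub
    have c2' := card_union_le
      (((blk p β r (β * lam)).filter fun y => y ≠ x' ∧ |Sv c x' - Sv c y| ≤ V).image
          fun y => a :: y)
      ((((Ioc ⌊(p : ℝ) ^ lam⌋₊ (2 * ⌊(p : ℝ) ^ lam⌋₊)).filter fun b : ℕ => b ≠ a ∧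
          |(a : ℝ) - b| ≤ X) ×ˢ blk p β r (β * lam)).image fun t => t.1 :: t.2)
    have c3' : ((((blk p β r (β * lam)).filter fun y => y ≠ x' ∧ |Sv c x' - Sv c y| ≤ V).image
          fun y => a :: y).card : ℝ)
        ≤ K * V * (p : ℝ) ^ (r * (c2 - 1 - β * c1) - β * lam * c1) * n := by
      rw [hn]
      refine le_trans ?_ (hI c h2 h3 x' hx' V hV)
      exact_mod_cast card_image_le
    have c4' : ((((((Ioc ⌊(p : ℝ) ^ lam⌋₊ (2 * ⌊(p : ℝ) ^ lam⌋₊)).filter fun b : ℕ => b ≠ a ∧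
          |(a : ℝ) - b| ≤ X) ×ˢ blk p β r (β * lam)).image fun t => t.1 :: t.2)).card : ℝ)
        ≤ 2 * X * n := by
      have d1 : ((((((Ioc ⌊(p : ℝ) ^ lam⌋₊ (2 * ⌊(p : ℝ) ^ lam⌋₊)).filter fun b : ℕ => b ≠ a ∧
          |(a : ℝ) - b| ≤ X) ×ˢ blk p β r (β * lam)).image fun t => t.1 :: t.2)).card : ℝ)
          ≤ ((((Ioc ⌊(p : ℝ) ^ lam⌋₊ (2 * ⌊(p : ℝ) ^ lam⌋₊)).filter fun b : ℕ => b ≠ a ∧
          |(a : ℝ) - b| ≤ X) ×ˢ blk p β r (β * lam)).card : ℝ) := by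
        exact_mod_cast card_image_le
      refine d1.trans ?_
      rw [card_product, hn]
      push_cast
      apply mul_le_mul_of_nonneg_right _ (Nat.cast_nonneg _)
      apply cnt_near hX0 (a := a)
      intro b hb
      rw [mem_filter] at hb
      exact hb.2
    have c5' : (((blk p β (r + 1) lam).filter fun y => y ≠ a :: x' ∧
        |Sv c (a :: x') - Sv c y| ≤ V).card : ℝ)
        ≤ K * V * (p : ℝ) ^ (r * (c2 - 1 - β * c1) - β * lam * c1) * n + 2 * X * n := by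
      have : (((blk p β (r + 1) lam).filter fun y => y ≠ a :: x' ∧
        |Sv c (a :: x') - Sv c y| ≤ V).card : ℝ) ≤
        ((((blk p β r (β * lam)).filter fun y => y ≠ x' ∧ |Sv c x' - Sv c y| ≤ V).image
          fun y => a :: y).card : ℝ) +
        ((((((Ioc ⌊(p : ℝ) ^ lam⌋₊ (2 * ⌊(p : ℝ) ^ lam⌋₊)).filter fun b : ℕ => b ≠ a ∧
          |(a : ℝ) - b| ≤ X) ×ˢ blk p β r (β * lam)).image fun t => t.1 :: t.2)).card : ℝ) := by
        exact_mod_cast c1'.trans c2'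
      linarith
    refine c5'.trans ?_
    -- the final comparison
    have hn2 : n ≤ 2 * N * (p : ℝ) ^ (-lam) := by
      rw [Real.rpow_neg hp0.le, ← div_eq_mul_inv, le_div_iff₀ (Real.rpow_pos_of_pos hp0 _)]
      linarith
    have hN0 : 0 ≤ N := by rw [hN]; exact Nat.cast_nonneg _
    obtain ⟨e, hedef⟩ : ∃ e : ℝ, e = c2 - 1 - β * c1 := ⟨_, rfl⟩
    rw [← hN, ← hedef]
    rw [← hedef] at he
    obtain ⟨T, hT⟩ : ∃ T : ℝ, T = (p : ℝ) ^ (((r + 1 : ℕ) : ℝ) * e - lam * c1) := ⟨_, rfl⟩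
    have t1 : (p : ℝ) ^ (r * e - β * lam * c1) * (p : ℝ) ^ (-lam) ≤ T := by
      rw [hT, ← Real.rpow_add hp0]
      apply Real.rpow_le_rpow_of_exponent_le hp1
      push_cast
      have : lam * (c1 - 1 - β * c1) ≤ e := by
        have h5 : 0 ≤ c1 - 1 - β * c1 := by nlinarith
        calc lam * (c1 - 1 - β * c1) ≤ 1 * (c1 - 1 - β * c1) :=
              mul_le_mul_of_nonneg_right h1 h5
          _ ≤ e := by rw [hedef]; linarith
      nlinarith
    have t2 : (p : ℝ) ^ (-(lam * (c - 1))) * (p : ℝ) ^ (-lam) ≤ T := by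
      rw [hT, ← Real.rpow_add hp0]
      apply Real.rpow_le_rpow_of_exponent_le hp1
      push_cast
      have h5 : 0 ≤ ((r : ℝ) + 1) * e := by positivity
      nlinarith
    have q1 : 0 ≤ (p : ℝ) ^ (r * e - β * lam * c1) := Real.rpow_nonneg hp0.le _
    have q2 : 0 ≤ (p : ℝ) ^ (-(lam * (c - 1))) := Real.rpow_nonneg hp0.le _
    have s1 : K * V * (p : ℝ) ^ (r * e - β * lam * c1) * n ≤ 2 * K * V * T * N := by
      calc K * V * (p : ℝ) ^ (r * e - β * lam * c1) * n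
          ≤ K * V * (p : ℝ) ^ (r * e - β * lam * c1) * (2 * N * (p : ℝ) ^ (-lam)) :=
            mul_le_mul_of_nonneg_left hn2 (by positivity)
        _ = 2 * K * V * N * ((p : ℝ) ^ (r * e - β * lam * c1) * (p : ℝ) ^ (-lam)) := by ring
        _ ≤ 2 * K * V * N * T := mul_le_mul_of_nonneg_left t1 (by positivity)
        _ = 2 * K * V * T * N := by ring
    have s2 : 2 * X * n ≤ 6 * V * T * N := by
      have hT0 : 0 ≤ T := by rw [hT]; exact Real.rpow_nonneg hp0.le _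
      calc 2 * X * n ≤ 2 * X * (2 * N * (p : ℝ) ^ (-lam)) :=
            mul_le_mul_of_nonneg_left hn2 (by positivity)
        _ = 16 / 3 * V * N * ((p : ℝ) ^ (-(lam * (c - 1))) * (p : ℝ) ^ (-lam)) := by
            rw [hX]
            ring
        _ ≤ 16 / 3 * V * N * T := mul_le_mul_of_nonneg_left t2 (by positivity)
        _ ≤ 6 * V * T * N := by
            have : 0 ≤ V * N * T := by positivity
            nlinarith
    rw [← hT]
    calc _ ≤ 2 * K * V * T * N + 6 * V * T * N := add_le_add s1 s2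
      _ = (2 * K + 6) * V * T * N := by ring

theorem ld : S_LD := fun β c1 c2 lam B r hβ hc1 _ hb h0 h1 =>
  ld_aux β c1 c2 B hβ hc1 hb r lam h0 h1

theorem cnt : S_CNT := fun β c1 c2 lam r hβ hc1 hc hb h0 h1 =>
  cnt_aux β c1 c2 hβ hc1 hc hb r lam h0 h1

end

end Pool.Agent.Y302.RE
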